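import Pool.Agent.Lib.Pf720ca.ConvK
import Pool.Agent.Lib.Pf720ca.Main

set_option autoImplicit false

open MeasureTheory Filter Topology ProbabilityTheory

namespace Pool.Agent.Results.MP_f720ae_an.ClassicalActions

/-- The ordered composition `T_1^{e_1} ∘ ⋯ ∘ T_d^{e_d}` (the factor `i = 1` leftmost, so the factor
`i = d` acts first). -/
def word {X : Type} {d : ℕ} (T : Fin d → Equiv.Perm X) (e : Fin d → ℤ) : Equiv.Perm X :=
  (List.ofFn fun i => T i ^ e i).prod

/-- The σ-algebra generated by the variables `ξ_a ∘ T^u`, `a ∈ I`, `u ∈ ℤ^d` (with values in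
`E = ℝ` or `E = ℂ` below). -/
@[reducible] def generated {X E : Type} [TopologicalSpace E] {d : ℕ} (T : Fin d → Equiv.Perm X)
    {I : Type} (ξ : I → X → E) : MeasurableSpace X :=
  ⨆ p : I × (Fin d → ℤ), MeasurableSpace.comap (fun x => ξ p.1 (word T p.2 x)) (borel E)

/-- Shannon entropy (natural logarithm) of the join of the partitions `T^{-u} {A, Aᶜ}`,
`u ∈ {0, …, N-1}^d`. The cells of the join are indexed by the set `ω` of those `u` for which
`T^u x ∈ A`. -/
noncomputable def blockEntropy {X : Type} [MeasurableSpace X] (μ : Measure X) {d : ℕ}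
    (T : Fin d → Equiv.Perm X) (A : Set X) (N : ℕ) : ℝ :=
  ∑ ω : Finset (Fin d → Fin N), Real.negMulLog
    (μ.real {x | ∀ u : Fin d → Fin N, word T (fun i => ((u i : ℕ) : ℤ)) x ∈ A ↔ u ∈ ω})

/-- For all `k`, `n`, all integer polynomials `P_{i,j} ∈ ℤ[m_1, …, m_k]` (`i ≤ d`, `j ≤ n`) and all
`f_1, …, f_n ∈ L^∞(X, m, μ)` (bounded functions that are a.e. equal to an `m`-measurable function) the
averages
`(M_1 ⋯ M_k)⁻¹ ∑_{m ∈ [M_1] × ⋯ × [M_k]} ∏_j f_j (T_1^{P_{1,j}(m)} ⋯ T_d^{P_{d,j}(m)} x)`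
converge for a.e. `x` as `min_i M_i → ∞` (unrestricted limit). -/
def PolynomialConvergence {X : Type} [MeasurableSpace X] (μ : Measure X) {d : ℕ}
    (T : Fin d → Equiv.Perm X) (m : MeasurableSpace X) : Prop :=
  ∀ (k n : ℕ) (P : Fin n → Fin d → MvPolynomial (Fin k) ℤ) (f : Fin n → X → ℂ),
    (∀ j, MemLp (f j) ⊤ μ ∧ AEStronglyMeasurable[m] (f j) μ) →
    ∀ᵐ x ∂μ, ∃ L : ℂ, Tendsto (fun M : Fin k → ℕ => (∏ l, (M l : ℂ))⁻¹ *
      ∑ m ∈ Fintype.piFinset (fun l => Finset.Icc 1 (M l)),
        ∏ j, f j (word T (fun i => MvPolynomial.eval (fun l => (m l : ℤ)) (P j i)) x))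
      atTop (𝓝 L)

/-- `N` is a Poisson random measure with intensity `ν`: it is measurable, and for disjoint sets
`B_1, …, B_n` of finite measure the variables `N(B_i)` are independent Poisson variables with
means `ν(B_i)`. -/
def IsPoisson {X Y : Type} [MeasurableSpace X] [MeasurableSpace Y] (μ : Measure X) (ν : Measure Y)
    (N : X → Measure Y) : Prop :=
  Measurable N ∧ ∀ (n : ℕ) (B : Fin n → Set Y), (∀ i, MeasurableSet (B i)) →
    (∀ i, ν (B i) < ⊤) → (∀ i j, i ≠ j → Disjoint (B i) (B j)) → ∀ k : Fin n → ℕ,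
    μ.real {x | ∀ i, N x (B i) = k i} =
      ∏ i, (Real.exp (-ν.real (B i)) * ν.real (B i) ^ k i / (k i).factorial)

/-- Log-summability of the return correlations of `B` along polynomials: for all `k` and all
`p ∈ ℤ[t_1, …, t_k]^d` in which every variable occurs there is a set `E ⊆ ℕ^k` with
`#(E ∩ [0, M_1) × ⋯ × [0, M_k)) / (M_1 ⋯ M_k) → 0` as `min_i M_i → ∞`, such that
`∑_{m ∉ E} ν(B ∩ R^{-p(m)} B)^{1/2} / ((m_1 + 1) ⋯ (m_k + 1)) < ∞`. -/
def LogSummable {Y : Type} [MeasurableSpace Y] (ν : Measure Y) {d : ℕ}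
    (R : Fin d → Equiv.Perm Y) (B : Set Y) : Prop :=
  ∀ (k : ℕ) (p : Fin d → MvPolynomial (Fin k) ℤ), (∀ l, ∃ i, l ∈ (p i).vars) →
    ∃ E : Set (Fin k → ℕ),
      Tendsto (fun M : Fin k → ℕ => (∏ l, (M l : ℝ))⁻¹ *
        ∑ m ∈ Fintype.piFinset fun l => Finset.range (M l), E.indicator (fun _ => (1 : ℝ)) m)
        atTop (𝓝 0) ∧
      Summable (Eᶜ.indicator fun m : Fin k → ℕ =>
        Real.sqrt (ν.real (B ∩ word R (fun i =>
          MvPolynomial.eval (fun l => (m l : ℤ)) (p i)) ⁻¹' B)) / ∏ l, ((m l : ℝ) + 1))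

/-- `θ` is a polynomial phase function of the action: it is measurable, `|θ| = 1`, and for a.e. `x`
there is a real polynomial `p` in `d` variables (of any degree, depending on `x`) such that
`θ (T^u x) = e^{i p(u)}` for all `u ∈ ℤ^d`. -/
def IsPolynomialPhase {X : Type} [MeasurableSpace X] (μ : Measure X) {d : ℕ}
    (T : Fin d → Equiv.Perm X) (θ : X → ℂ) : Prop :=
  Measurable θ ∧ (∀ x, ‖θ x‖ = 1) ∧
    ∀ᵐ x ∂μ, ∃ p : MvPolynomial (Fin d) ℝ, ∀ u : Fin d → ℤ,
      θ (word T u x) = Complex.exp ((MvPolynomial.eval (fun i => (u i : ℝ)) p : ℝ) * Complex.I)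

/-- Affine, Gaussian and Poisson actions of `ℤ^d`, their independent products, and their extensions
without new sets of zero entropy. Let `T_1, …, T_d` be commuting invertible measure-preserving maps of
a probability space `(X, μ)`. Let

(1) `π : X → Z` be a factor map to a compact (Hausdorff) abelian group `Z` with its Haar probability
measure `λ`, on which `T_i` acts by a continuous affine bijection `A_i z = a_i * α_i z`
(`π T_i = A_i π` a.e.);

(2) `ξ_a` (`a ∈ I`) be random variables such that all the variables `ξ_a ∘ T^u` are jointly Gaussian;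

(3) `N` be a Poisson random measure with intensity `ν` on `Y` such that `N(T_i x)` is the image of
`N(x)` under `R_i`, where `R_1, …, R_d` are commuting invertible `ν`-preserving maps, and `Y` is the
union of an increasing sequence of sets `B_r` of finite measure with log-summable return
correlations; by the first part of the theorem it is enough that these correlations decay
polynomially;

(4) `θ_c` (`c ∈ J`) be polynomial phase functions.

Suppose that (1), (2), (3), (4) are independent, and let `G` be the factor generated by them. Then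
for all `k`, `n` and all integer polynomials `P_{i,j} ∈ ℤ[m_1, …, m_k]` the averages of
`∏_{j ≤ n} f_j (T_1^{P_{1,j}(m)} ⋯ T_d^{P_{d,j}(m)} x)` over `[M_1] × ⋯ × [M_k]` converge a.e. as
`min_i M_i → ∞` (unrestricted limit) for all bounded `f_j` measurable with respect to `G`; if moreover
every set of zero entropy belongs to `G` modulo null sets, then they converge a.e. for all bounded
functions `f_j`. -/
theorem result :
    (∀ (d : ℕ) (Y : Type) [MeasurableSpace Y] (ν : Measure Y) (R : Fin d → Equiv.Perm Y),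
      (∀ i, Measurable (R i) ∧ Measurable (R i).symm ∧ MeasurePreserving (R i) ν ν) →
      (∀ i i', R i * R i' = R i' * R i) → ∀ (B : Set Y) (C δ : ℝ), 0 < δ →
      (∀ u : Fin d → ℤ, ν.real (B ∩ word R u ⁻¹' B) ≤ C * (1 + ‖u‖) ^ (-δ)) →
      LogSummable ν R B) ∧
    ∀ (d : ℕ) (X : Type) [mX : MeasurableSpace X] (μ : Measure X) [IsProbabilityMeasure μ]
      (T : Fin d → Equiv.Perm X),
      (∀ i, Measurable (T i) ∧ Measurable (T i).symm ∧ MeasurePreserving (T i) μ μ) →
      (∀ i i', T i * T i' = T i' * T i) →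
      ∀ (Z : Type) [CommGroup Z] [TopologicalSpace Z] [IsTopologicalGroup Z] [CompactSpace Z]
        [T2Space Z] [MeasurableSpace Z] [BorelSpace Z] (lam : Measure Z) [IsProbabilityMeasure lam]
        [lam.IsHaarMeasure] (A : Fin d → Equiv.Perm Z) (a : Fin d → Z) (α : Fin d → Z →* Z)
        (π : X → Z), (∀ i, Continuous (A i)) → (∀ i z, A i z = a i * α i z) →
      MeasurePreserving π μ lam → (∀ i, ∀ᵐ x ∂μ, π (T i x) = A i (π x)) →
      ∀ (I : Type) (ξ : I → X → ℝ), (∀ a, Measurable (ξ a)) →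
      IsGaussianProcess (fun (p : I × (Fin d → ℤ)) (x : X) => ξ p.1 (word T p.2 x)) μ →
      ∀ (Y : Type) [MeasurableSpace Y] (ν : Measure Y) (R : Fin d → Equiv.Perm Y),
      (∀ i, Measurable (R i) ∧ Measurable (R i).symm ∧ MeasurePreserving (R i) ν ν) →
      (∀ i i', R i * R i' = R i' * R i) →
      ∀ N : X → Measure Y, IsPoisson μ ν N → (∀ i x, N (T i x) = (N x).map (R i)) →
      ∀ B : ℕ → Set Y, Monotone B → (∀ r, MeasurableSet (B r)) → (∀ r, ν (B r) < ⊤) →
      (⋃ r, B r = Set.univ) → (∀ r, LogSummable ν R (B r)) →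
      ∀ (J : Type) (θ : J → X → ℂ), (∀ c, IsPolynomialPhase μ T (θ c)) →
      Indep (generated T ξ) (MeasurableSpace.comap N inferInstance) μ →
      Indep (generated T θ) (generated T ξ ⊔ MeasurableSpace.comap N inferInstance) μ →
      Indep (MeasurableSpace.comap π inferInstance)
        (generated T ξ ⊔ MeasurableSpace.comap N inferInstance ⊔ generated T θ) μ →
      PolynomialConvergence μ T (MeasurableSpace.comap π inferInstance ⊔
        (generated T ξ ⊔ MeasurableSpace.comap N inferInstance ⊔ generated T θ)) ∧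
      ((∀ D : Set X, MeasurableSet D →
          Tendsto (fun n : ℕ => blockEntropy μ T D n / (n : ℝ) ^ d) atTop (𝓝 0) →
          ∃ E, MeasurableSet[MeasurableSpace.comap π inferInstance ⊔
            (generated T ξ ⊔ MeasurableSpace.comap N inferInstance ⊔ generated T θ)] E ∧
            D =ᵐ[μ] E) →
        PolynomialConvergence μ T mX) := by
  refine ⟨fun d Y mY ν R hR hRcomm B C δ hδ h => ?_, ?_⟩
  · exact Pool.Agent.Lib.Pf720pq.logS_of_decay
      (Pool.Agent.Lib.Pf720po.permActS R hR hRcomm) hδ h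
  intro d X mX μ hμ T hT hcomm Z gZ tZ tgZ cZ hZ mZ bZ lam hlp hlH A a α π hAc hAα hπ hπT I ξ hξm
    hξ Y mY ν R hR hRcomm N hN hNT B hBmono hB hνB hBU hlog J θ hθ hind hindW hindZ
  have h1 : Pool.Agent.Lib.Pf720pm.PolC μ T Set.univ (fun _ => Set.univ)
      (MeasurableSpace.comap π inferInstance ⊔
        (generated T ξ ⊔ MeasurableSpace.comap N inferInstance ⊔ generated T θ)) :=
    Pool.Agent.Lib.Pf720ca.classical_all T hT hcomm A hAc a α hAα π hπ hπT ξ hξm hξ R hR
      hRcomm hN hNT hind hBmono hB hνB hBU (fun r => Pool.Agent.Lib.Pf720pq.retM_of_logS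
        (Pool.Agent.Lib.Pf720po.permActS R hR hRcomm) (hlog r)) θ (fun c => (hθ c).1)
      (fun c => (hθ c).2.1) (fun c => (hθ c).2.2) hindW hindZ (fun _ => Set.univ)
  refine ⟨fun k n P f hf => h1 k (Set.mem_univ k) n P f (fun _ => Set.mem_univ _) hf,
    fun h => ?_⟩
  have h2 := Pool.Agent.Lib.Pf720ca.reduce T hT hcomm Set.univ (Or.inr rfl) _ h1 h
  exact fun k n P f hf => h2 k (Set.mem_univ k) n P f (fun _ => Set.mem_univ _) hf

end Pool.Agent.Results.MP_f720ae_an.ClassicalActions
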