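import Pool.Agent.Lib.EQD.Final
import Pool.Agent.Lib.EQD.InvF
import Pool.Agent.Lib.EQD.T1c
import Pool.Agent.Lib.EQD.MidM

set_option autoImplicit false

open MeasureTheory Filter Topology

namespace Pool.Agent.Results.MP_f720ae_an.EqualDegree

/-- `P_1, …, P_n` have the same degree and, compared with the base polynomial `P_{i₀}`, the
differences `P_i - P_{i₀}` (`i ≠ i₀`) have pairwise distinct degrees between `1` and
`deg P_{i₀} - 1`. For instance `m², m² + m`, or `m⁴, m⁴ + m, m⁴ + m², m⁴ + 5 m³`. -/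
def EqualDeg {n : ℕ} (P : Fin n → Polynomial ℤ) (i₀ : Fin n) : Prop :=
  (∀ i, i ≠ i₀ → 1 ≤ (P i - P i₀).natDegree ∧ (P i - P i₀).natDegree < (P i₀).natDegree) ∧
  ∀ i j, i ≠ i₀ → j ≠ i₀ → i ≠ j → (P i - P i₀).natDegree ≠ (P j - P i₀).natDegree

/-- Pointwise convergence for several functions along polynomials of EQUAL degree. Let `T` be an
invertible measure-preserving map of a probability space, `n ≥ 2`, `P_1, …, P_n ∈ ℤ[m]` as in
`EqualDeg`, and let `f_1, …, f_n ∈ L^∞`. Then the averages of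
`f_1 (T^{P_1(m)} x) ⋯ f_n (T^{P_n(m)} x)` over `1 ≤ m ≤ N` converge for a.e. `x`. If all powers of
`T` are ergodic, the limit is the product of the integrals. For every `T` the limit is `0` if one
of the `f_i` is orthogonal to all square-integrable functions which are invariant under some power
`T^q`, `q ≥ 1`. -/
theorem result (n : ℕ) (hn : 2 ≤ n) (X : Type) [MeasurableSpace X] (μ : Measure X)
    [IsProbabilityMeasure μ] (T : Equiv.Perm X)
    (hT : Measurable T ∧ Measurable T.symm ∧ MeasurePreserving T μ μ)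
    (P : Fin n → Polynomial ℤ) (i₀ : Fin n) (hP : EqualDeg P i₀)
    (f : Fin n → X → ℂ) (hf : ∀ i, MemLp (f i) ⊤ μ) :
    (∀ᵐ x ∂μ, ∃ L : ℂ, Tendsto (fun N : ℕ => (N : ℂ)⁻¹ *
      ∑ m ∈ Finset.Icc 1 N, ∏ i, f i ((T ^ ((P i).eval (m : ℤ))) x)) atTop (𝓝 L)) ∧
    ((∀ q : ℕ, 1 ≤ q → Ergodic (T ^ q : Equiv.Perm X) μ) →
      ∀ᵐ x ∂μ, Tendsto (fun N : ℕ => (N : ℂ)⁻¹ *
        ∑ m ∈ Finset.Icc 1 N, ∏ i, f i ((T ^ ((P i).eval (m : ℤ))) x)) atTop
        (𝓝 (∏ i, ∫ x, f i x ∂μ))) ∧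
    (∀ i, (∀ q : ℕ, 1 ≤ q → ∀ g : X → ℂ, MemLp g 2 μ → (∀ᵐ x ∂μ, g ((T ^ q) x) = g x) →
        ∫ x, f i x * g x ∂μ = 0) →
      ∀ᵐ x ∂μ, Tendsto (fun N : ℕ => (N : ℂ)⁻¹ *
        ∑ m ∈ Finset.Icc 1 N, ∏ i, f i ((T ^ ((P i).eval (m : ℤ))) x)) atTop (𝓝 0)) :=
  Pool.Agent.EQD.Lo.final (fun k P R d hd h1 hR hP =>
    let h := Pool.Agent.EQD.eqDeg_equal k P R d hd h1 hR hP
    ⟨Pool.Agent.EQD.midB h, Pool.Agent.EQD.Lo.low_bound h⟩) n hn T hT P i₀ hP f hf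

end Pool.Agent.Results.MP_f720ae_an.EqualDegree
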