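import Pool.Agent.Lib.Npz.Red

set_option autoImplicit false

open MeasureTheory Filter Topology
open scoped ENNReal

namespace Pool.Agent.Results.MP_f720ae_an.NilpotentReduction

/-- `S_P(m) = T_1^{P_1(m)} ∘ ⋯ ∘ T_d^{P_d(m)}` for a `d`-tuple `P` of polynomials in
`ℤ[m_1, …, m_k]` (the factor `i = 1` leftmost, so the factor `i = d` acts first). -/
noncomputable def curve {X : Type} {d k : ℕ} (T : Fin d → Equiv.Perm X)
    (P : Fin d → MvPolynomial (Fin k) ℤ) (m : Fin k → ℕ) : Equiv.Perm X :=
  (List.ofFn fun i => T i ^ MvPolynomial.eval (fun l => (m l : ℤ)) (P i)).prod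

/-- Let `K` be a set of numbers of variables, `N ≤ ∞` a number of functions and, for each `k`, `Q k` a
set of `d`-tuples of polynomials in `ℤ[m_1, …, m_k]`. For all `k ∈ K`, all `n ≤ N`, all
`P_1, …, P_n ∈ Q k` and all `f_1, …, f_n ∈ L^∞(X, 𝒩, μ)` (bounded functions that are a.e. equal to an
`𝒩`-measurable function) the averages
`(M_1 ⋯ M_k)⁻¹ ∑_{m ∈ [M_1] × ⋯ × [M_k]} f_1(S_{P_1}(m) x) ⋯ f_n(S_{P_n}(m) x)`
converge for a.e. `x` as `min_l M_l → ∞` (unrestricted limit). -/
def PolynomialConvergence {X : Type} [MeasurableSpace X] (μ : Measure X) {d : ℕ}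
    (T : Fin d → Equiv.Perm X) (K : Set ℕ) (N : ℕ∞)
    (Q : (k : ℕ) → Set (Fin d → MvPolynomial (Fin k) ℤ)) (𝒩 : MeasurableSpace X) : Prop :=
  ∀ k ∈ K, ∀ n : ℕ, (n : ℕ∞) ≤ N →
    ∀ (P : Fin n → Fin d → MvPolynomial (Fin k) ℤ) (f : Fin n → X → ℂ), (∀ j, P j ∈ Q k) →
    (∀ j, MemLp (f j) ⊤ μ ∧ AEStronglyMeasurable[𝒩] (f j) μ) →
    ∀ᵐ x ∂μ, ∃ L : ℂ, Tendsto (fun M : Fin k → ℕ => (∏ l, (M l : ℂ))⁻¹ *
      ∑ m ∈ Fintype.piFinset (fun l => Finset.Icc 1 (M l)), ∏ j, f j (curve T (P j) m x))
      atTop (𝓝 L)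

/-- Shannon entropy (natural logarithm) of the join of the partitions `g⁻¹ {A, Aᶜ}`, `g ∈ F`. The
cells of the join are indexed by the set `ω` of those `g ∈ F` for which `g x ∈ A`. -/
noncomputable def joinEntropy {X : Type} [MeasurableSpace X] (μ : Measure X)
    (G : Subgroup (Equiv.Perm X)) (A : Set X) (F : Finset G) : ℝ :=
  ∑ ω ∈ F.powerset, Real.negMulLog (μ.real {x | ∀ g ∈ F, (g : Equiv.Perm X) x ∈ A ↔ g ∈ ω})

/-- `A` has zero entropy for the action of `G`: the infimum over the finite nonempty `F ⊆ G` of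
`H(⋁_{g ∈ F} g⁻¹ {A, Aᶜ}) / |F|` is zero. -/
def ZeroEntropy {X : Type} [MeasurableSpace X] (μ : Measure X) (G : Subgroup (Equiv.Perm X))
    (A : Set X) : Prop :=
  ∀ ε : ℝ, 0 < ε → ∃ F : Finset G, F.Nonempty ∧ joinEntropy μ G A F ≤ ε * F.card

/-- `Q` is closed under injective renaming of the variables. -/
def RenamingClosed {d : ℕ} (Q : (k : ℕ) → Set (Fin d → MvPolynomial (Fin k) ℤ)) : Prop :=
  ∀ (k k' : ℕ) (σ : Fin k → Fin k'), Function.Injective σ → ∀ P ∈ Q k,
    (fun i => MvPolynomial.rename σ (P i)) ∈ Q k'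

/-- `Q` is closed under the substitutions `m_l ↦ q m_l + r_l` (`q ≥ 1`, `r_l ≥ 0`), that is under
the restriction to the cosets of `q ℕ^k`. -/
def SubstitutionClosed {d : ℕ} (Q : (k : ℕ) → Set (Fin d → MvPolynomial (Fin k) ℤ)) : Prop :=
  ∀ (k : ℕ) (P : Fin d → MvPolynomial (Fin k) ℤ), P ∈ Q k → ∀ (q : ℕ) (r : Fin k → ℕ), 0 < q →
    (fun i => MvPolynomial.bind₁ (fun l => MvPolynomial.C (q : ℤ) * MvPolynomial.X l +
      MvPolynomial.C (r l : ℤ)) (P i)) ∈ Q k

/-- The group `G` has no elements of finite order except the identity. -/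
def TorsionFree {X : Type} (G : Subgroup (Equiv.Perm X)) : Prop :=
  ∀ g : G, ∀ n : ℕ, 0 < n → g ^ n = 1 → g = 1

/-- For all `f ∈ L^∞(μ)` the linear averages
`(M_1 ⋯ M_k)⁻¹ ∑_{m ∈ [M_1] × ⋯ × [M_k]} f(S_P(m) x)` converge for a.e. `x` as `min_l M_l → ∞`. -/
def LinearConvergence {X : Type} [MeasurableSpace X] (μ : Measure X) {d k : ℕ}
    (T : Fin d → Equiv.Perm X) (P : Fin d → MvPolynomial (Fin k) ℤ) : Prop :=
  ∀ f : X → ℂ, MemLp f ⊤ μ → ∀ᵐ x ∂μ, ∃ L : ℂ, Tendsto (fun M : Fin k → ℕ =>
    (∏ l, (M l : ℂ))⁻¹ * ∑ m ∈ Fintype.piFinset (fun l => Finset.Icc 1 (M l)),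
      f (curve T P m x)) atTop (𝓝 L)

/-- The indices divide into consecutive blocks `{i | β i = b}` such that polynomials `P_i` in different
blocks have no variable in common, and in each block either the `T_i` with `P_i ≠ 0` commute with
each other or the `P_i` depend on at most one variable, the same one for the whole block. For
instance: `k = 1` (one block); or the `T_i` with `P_i ≠ 0` commute (one block); or the `P_i` have
separate variables, as in `T_1^{m_1} ⋯ T_d^{m_d}` (`d` blocks). -/
def Separated {X : Type} {d k : ℕ} (T : Fin d → Equiv.Perm X)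
    (P : Fin d → MvPolynomial (Fin k) ℤ) : Prop :=
  ∃ β : Fin d → ℕ, Monotone β ∧ (∀ i i', β i ≠ β i' → Disjoint (P i).vars (P i').vars) ∧
    ∀ b, (∀ i i', β i = b → β i' = b → P i ≠ 0 → P i' ≠ 0 → T i * T i' = T i' * T i) ∨
      (∀ i i', β i = b → β i' = b → ∀ l ∈ (P i).vars, ∀ l' ∈ (P i').vars, l = l')

/-- The `S_i` satisfy the same relations as the `T_i`: a word in the letters `i^{±1}` is the identity
for `T_1, …, T_d` if and only if it is the identity for `S_1, …, S_d`; that is, `T_i ↦ S_i` extends to an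
isomorphism of the generated groups. -/
def SameRelations {X Y : Type} {d : ℕ} (T : Fin d → Equiv.Perm X) (S : Fin d → Equiv.Perm Y) :
    Prop :=
  ∀ w : FreeGroup (Fin d), FreeGroup.lift T w = 1 ↔ FreeGroup.lift S w = 1

/-- A system of zero entropy with the group of `T`: `S_1, …, S_d` are invertible measure-preserving
maps of the probability space `(Y, ν)`, they satisfy the same relations as `T_1, …, T_d`, and all
measurable subsets of `Y` have zero entropy for the group generated by the `S_i`. -/
structure ZeroEntropySystem {X Y : Type} [MeasurableSpace Y] (ν : Measure Y) {d : ℕ}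
    (T : Fin d → Equiv.Perm X) (S : Fin d → Equiv.Perm Y) : Prop where
  isProbabilityMeasure : IsProbabilityMeasure ν
  measurePreserving : ∀ i, Measurable (S i) ∧ Measurable (S i).symm ∧ MeasurePreserving (S i) ν ν
  sameRelations : SameRelations T S
  zeroEntropy : ∀ A : Set Y, MeasurableSet A → ZeroEntropy ν (Subgroup.closure (Set.range S)) A

/-- Reduction to zero entropy for polynomial multiple averages of nilpotent group actions. Let
`T_1, …, T_d` be invertible measure-preserving maps of a probability space which generate a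
nilpotent group `G` and let `𝒩` be a σ-algebra which contains, modulo null sets, every measurable
set of zero entropy for `G` (for instance the σ-algebra generated by these sets, or the trivial one
if they all have measure `0` or `1`). Let `Q` be a class of tuples of polynomials in several
variables (for instance all of them) which is closed under injective renaming of the variables and,
unless `G` is torsion free, under the substitutions `m_l ↦ q m_l + r_l`; let either the number `k` of
variables be arbitrary (`K = ℕ`) and the number `n` of functions arbitrary (`N = ∞`), or `k` equal to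
one (`K = {1}`) and `n ≤ N` for a given `N ≥ 1` (for instance `N = 2`). Then the multiple averages
with exponents in `Q` converge a.e. for all bounded measurable functions if and only if
* for all those `P ∈ Q` which are not separated (if `k = 1` or if the `T_i` commute then every `P` is
  separated) the linear averages (`n = 1`) along `S_P` converge a.e. for all bounded measurable
  functions, on this system or on all the systems of zero entropy with the same group, and
* the multiple averages with exponents in `Q` converge a.e. for the bounded `𝒩`-measurable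
  functions. -/
theorem result (d : ℕ) (X : Type) (𝒩 : MeasurableSpace X) [mX : MeasurableSpace X]
    (μ : Measure X) [IsProbabilityMeasure μ] (T : Fin d → Equiv.Perm X)
    (hT : ∀ i, Measurable (T i) ∧ Measurable (T i).symm ∧ MeasurePreserving (T i) μ μ)
    (hG : Group.IsNilpotent (Subgroup.closure (Set.range T)))
    (h𝒩 : ∀ A : Set X, MeasurableSet A → ZeroEntropy μ (Subgroup.closure (Set.range T)) A →
      ∃ B, MeasurableSet[𝒩] B ∧ A =ᵐ[μ] B)
    (K : Set ℕ) (N : ℕ∞) (hN : 1 ≤ N) (hK : K = {1} ∨ (K = Set.univ ∧ N = ⊤))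
    (Q : (k : ℕ) → Set (Fin d → MvPolynomial (Fin k) ℤ)) (hQ : RenamingClosed Q)
    (hQ' : TorsionFree (Subgroup.closure (Set.range T)) ∨ SubstitutionClosed Q) :
    PolynomialConvergence μ T K N Q mX ↔
      (∀ k ∈ K, ∀ P ∈ Q k, Separated T P ∨ LinearConvergence μ T P ∨
        ∀ (Y : Type) [MeasurableSpace Y] (ν : Measure Y) (S : Fin d → Equiv.Perm Y),
          ZeroEntropySystem ν T S → LinearConvergence ν S P) ∧
        PolynomialConvergence μ T K N Q 𝒩 := by
  refine (Pool.Agent.Lib.Npz.red_iff 𝒩 T hT hG h𝒩 K _ (Pool.Agent.Lib.Pf720nk.kn_of hK)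
    (Pool.Agent.Lib.Pf720nk.one_mem_of hN) Q hQ hQ').trans (and_congr_left' ?_)
  refine forall₂_congr fun k hk => forall₂_congr fun P hP => ?_
  refine or_congr Iff.rfl (or_congr Iff.rfl ?_)
  exact ⟨fun h Y mY ν S hS => h Y mY ν hS.1 S hS.2 hS.3 hS.4,
    fun h Y mY ν hν S hS hrel hz => h Y ν S ⟨hν, hS, hrel, hz⟩⟩

/-- One variable: the multiple averages (`k = 1`, `n ≤ N`) with exponents in `Q` converge a.e. for all
bounded measurable functions if and only if they do for the bounded `𝒩`-measurable functions. -/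
theorem one_variable (d : ℕ) (X : Type) (𝒩 : MeasurableSpace X) [mX : MeasurableSpace X]
    (μ : Measure X) [IsProbabilityMeasure μ] (T : Fin d → Equiv.Perm X)
    (hT : ∀ i, Measurable (T i) ∧ Measurable (T i).symm ∧ MeasurePreserving (T i) μ μ)
    (hG : Group.IsNilpotent (Subgroup.closure (Set.range T)))
    (h𝒩 : ∀ A : Set X, MeasurableSet A → ZeroEntropy μ (Subgroup.closure (Set.range T)) A →
      ∃ B, MeasurableSet[𝒩] B ∧ A =ᵐ[μ] B) (N : ℕ∞) (hN : 1 ≤ N)
    (Q : (k : ℕ) → Set (Fin d → MvPolynomial (Fin k) ℤ)) (hQ : RenamingClosed Q)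
    (hQ' : TorsionFree (Subgroup.closure (Set.range T)) ∨ SubstitutionClosed Q) :
    PolynomialConvergence μ T {1} N Q mX ↔ PolynomialConvergence μ T {1} N Q 𝒩 := by
  rw [result d X 𝒩 μ T hT hG h𝒩 {1} N hN (Or.inl rfl) Q hQ hQ']
  refine and_iff_right ?_
  rintro k rfl P _
  exact Or.inl (Pool.Agent.Lib.Npz.sepG_one P)

/-- Systems of zero entropy suffice: if the multiple averages with exponents in `Q` converge a.e. for
all the systems of zero entropy with the same group as `T`, then they do for `T`. -/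
theorem zero_entropy_suffices (d : ℕ) (X : Type) [mX : MeasurableSpace X]
    (μ : Measure X) [IsProbabilityMeasure μ] (T : Fin d → Equiv.Perm X)
    (hT : ∀ i, Measurable (T i) ∧ Measurable (T i).symm ∧ MeasurePreserving (T i) μ μ)
    (hG : Group.IsNilpotent (Subgroup.closure (Set.range T)))
    (K : Set ℕ) (N : ℕ∞) (hN : 1 ≤ N) (hK : K = {1} ∨ (K = Set.univ ∧ N = ⊤))
    (Q : (k : ℕ) → Set (Fin d → MvPolynomial (Fin k) ℤ)) (hQ : RenamingClosed Q)
    (hQ' : TorsionFree (Subgroup.closure (Set.range T)) ∨ SubstitutionClosed Q)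
    (h : ∀ (Y : Type) [mY : MeasurableSpace Y] (ν : Measure Y) (S : Fin d → Equiv.Perm Y),
      ZeroEntropySystem ν T S → PolynomialConvergence ν S K N Q mY) :
    PolynomialConvergence μ T K N Q mX :=
  Pool.Agent.Lib.Pf720nk.zn_main T hT hG K _ (Pool.Agent.Lib.Pf720nk.kn_of hK)
    (Pool.Agent.Lib.Pf720nk.one_mem_of hN) Q hQ hQ'
    fun Y mY ν hν S hS hrel hz => @h Y mY ν S ⟨hν, hS, hrel, hz⟩

/-- The conjecture (all `d`, `k`, `n`, all polynomials, all nilpotent groups) is equivalent to its
restriction to the systems of zero entropy. -/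
theorem conjecture_iff_zero_entropy :
    (∀ (d : ℕ) (X : Type) [mX : MeasurableSpace X] (μ : Measure X) [IsProbabilityMeasure μ]
      (T : Fin d → Equiv.Perm X),
      (∀ i, Measurable (T i) ∧ Measurable (T i).symm ∧ MeasurePreserving (T i) μ μ) →
      Group.IsNilpotent (Subgroup.closure (Set.range T)) →
      PolynomialConvergence μ T Set.univ ⊤ (fun _ => Set.univ) mX) ↔
    (∀ (d : ℕ) (X : Type) [mX : MeasurableSpace X] (μ : Measure X) [IsProbabilityMeasure μ]
      (T : Fin d → Equiv.Perm X),
      (∀ i, Measurable (T i) ∧ Measurable (T i).symm ∧ MeasurePreserving (T i) μ μ) →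
      Group.IsNilpotent (Subgroup.closure (Set.range T)) →
      (∀ A : Set X, MeasurableSet A → ZeroEntropy μ (Subgroup.closure (Set.range T)) A) →
      PolynomialConvergence μ T Set.univ ⊤ (fun _ => Set.univ) mX) := by
  constructor
  · intro h d X _ μ _ T hT hG _
    exact h d X μ T hT hG
  · intro h d X _ μ _ T hT hG
    refine zero_entropy_suffices d X μ T hT hG Set.univ ⊤ le_top (Or.inr ⟨rfl, rfl⟩) _
      (fun _ _ _ _ _ _ => Set.mem_univ _) (Or.inr fun _ _ _ _ _ _ => Set.mem_univ _)
      fun Y _ ν S hS => ?_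
    have := hS.isProbabilityMeasure
    refine h d Y ν S hS.measurePreserving ?_ hS.zeroEntropy
    exact Pool.Agent.Lib.Pf720zr.nilpotent_of_sameRel hS.sameRelations hG

/-- If the `T_i` generate a nilpotent group and every set of zero entropy has measure `0` or `1`,
then for all `k`, all `n`, all separated `P_1, …, P_n` (for `k = 1`: all `P_1, …, P_n`) and all
`f_1, …, f_n ∈ L^∞(μ)` the averages converge a.e. -/
theorem completely_positive_entropy (d : ℕ) (X : Type) [mX : MeasurableSpace X]
    (μ : Measure X) [IsProbabilityMeasure μ] (T : Fin d → Equiv.Perm X)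
    (hT : ∀ i, Measurable (T i) ∧ Measurable (T i).symm ∧ MeasurePreserving (T i) μ μ)
    (hG : Group.IsNilpotent (Subgroup.closure (Set.range T)))
    (h : ∀ A : Set X, MeasurableSet A → ZeroEntropy μ (Subgroup.closure (Set.range T)) A →
      μ A = 0 ∨ μ A = 1) :
    PolynomialConvergence μ T Set.univ ⊤ (fun _ => {P | Separated T P}) mX :=
  fun k hk n _ => Pool.Agent.Lib.Npz.red_cpe T hT hG h k hk n (Set.mem_univ n)

end Pool.Agent.Results.MP_f720ae_an.NilpotentReduction
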